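import Pool.Agent.R745.CB.Stms

/-! Piece F (helper711): the Bernstein type bijection. -/

set_option autoImplicit false

namespace Pool.Agent.R745.CB.Bern

open Set Cardinal

/-- systems of distinct representatives -/
theorem sdr {I X : Type} (T : I → Set X) (h : ∀ i, #I ≤ #(T i)) :
    ∃ t : I → X, Function.Injective t ∧ ∀ i, t i ∈ T i := by
  obtain ⟨r, wo, hr⟩ := Cardinal.exists_ord_eq I
  have key : ∀ i (f : ∀ j, r j i → X), ∃ x, x ∈ T i ∧ ∀ j hj, f j hj ≠ x := by
    intro i f
    by_contra hcon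
    push Not at hcon
    have h1 : T i ⊆ range (fun j : {j // r j i} => f j.1 j.2) := by
      intro x hx
      obtain ⟨j, hj, e⟩ := hcon x hx
      exact ⟨⟨j, hj⟩, e⟩
    have h2 : #(T i) ≤ #{j // r j i} := (Cardinal.mk_le_mk_of_subset h1).trans Cardinal.mk_range_le
    have h3 : #{j // r j i} < #I := by
      have := Cardinal.card_typein_lt i hr
      rwa [Ordinal.card_typein] at this
    exact absurd (h i) (not_le.2 (h2.trans_lt h3))
  let t : I → X := wo.wf.fix (fun i f => Classical.choose (key i f))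
  have ht : ∀ i, t i ∈ T i ∧ ∀ j, r j i → t j ≠ t i := by
    intro i
    have e : t i = Classical.choose (key i (fun j _ => t j)) := wo.wf.fix_eq _ i
    have h1 := Classical.choose_spec (key i (fun j _ => t j))
    rw [← e] at h1
    exact h1
  refine ⟨t, ?_, fun i => (ht i).1⟩
  intro i j hij
  by_contra hne
  have h1 : ¬ r i j := fun h1 => (ht j).2 i h1 hij
  have h2 : ¬ r j i := fun h2 => (ht i).2 j h2 hij.symm
  exact hne (wo.trichotomous i j h1 h2)

theorem bern : StmBern := by
  intro A P hA hP J Z hJ hZ hJc hZc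
  -- index set
  let I' : Type := (J × Z) ⊕ A
  have hI' : #I' = 𝔠 := by
    have h1 : #(J × Z) ≤ 𝔠 := by
      rw [Cardinal.mk_prod, Cardinal.lift_id, Cardinal.lift_id]
      calc #J * #Z ≤ 𝔠 * 𝔠 := mul_le_mul' hJ hZ
        _ = 𝔠 := Cardinal.continuum_mul_self
    have h2 : #I' = #(J × Z) + #A := by
      rw [Cardinal.mk_sum, Cardinal.lift_id, Cardinal.lift_id]
    rw [h2, hA]
    exact Cardinal.add_eq_right Cardinal.aleph0_le_continuum h1
  have hI : #(I' × Bool) = 𝔠 := by
    rw [Cardinal.mk_prod, Cardinal.lift_id, Cardinal.lift_id, hI', Cardinal.mk_bool]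
    exact Cardinal.continuum_mul_ofNat
  let TA : I' × Bool → Set A := fun i => Sum.elim (fun p : J × Z => (p.1 : Set A)) (fun _ => Set.univ) i.1
  let TP : I' × Bool → Set P := fun i => Sum.elim (fun p : J × Z => (p.2 : Set P)) (fun _ => Set.univ) i.1
  obtain ⟨a, ha, ha'⟩ := sdr TA (by
    rintro ⟨i | i, b⟩
    · rw [hI]
      exact hJc _ i.1.2
    · rw [hI, show TA (Sum.inr i, b) = Set.univ from rfl, Cardinal.mk_univ, hA])
  obtain ⟨p, hp, hp'⟩ := sdr TP (by
    rintro ⟨i | i, b⟩
    · rw [hI]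
      exact hZc _ i.2.2
    · rw [hI, show TP (Sum.inr i, b) = Set.univ from rfl, Cardinal.mk_univ, hP])
  have hat : Function.Injective (fun i : I' => a (i, true)) := fun i j h => (Prod.ext_iff.1 (ha h)).1
  have hpt : Function.Injective (fun i : I' => p (i, true)) := fun i j h => (Prod.ext_iff.1 (hp h)).1
  let SA : Set A := range (fun i : I' => a (i, true))
  let SP : Set P := range (fun i : I' => p (i, true))
  let e1 : SA ≃ SP := (Equiv.ofInjective _ hat).symm.trans (Equiv.ofInjective _ hpt)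
  have hcA : #(SAᶜ : Set A) = 𝔠 := by
    apply le_antisymm
    · rw [← hA]; exact Cardinal.mk_set_le _
    · rw [← hI']
      have : Function.Injective (fun i : I' => (⟨a (i, false), by
        rintro ⟨j, hj⟩
        have := ha hj
        simp at this⟩ : (SAᶜ : Set A))) := by
        intro i j h
        exact (Prod.ext_iff.1 (ha (Subtype.ext_iff.1 h))).1
      exact Cardinal.mk_le_of_injective this
  have hcP : #(SPᶜ : Set P) = 𝔠 := by
    apply le_antisymm
    · rw [← hP]; exact Cardinal.mk_set_le _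
    · rw [← hI']
      have : Function.Injective (fun i : I' => (⟨p (i, false), by
        rintro ⟨j, hj⟩
        have := hp hj
        simp at this⟩ : (SPᶜ : Set P))) := by
        intro i j h
        exact (Prod.ext_iff.1 (hp (Subtype.ext_iff.1 h))).1
      exact Cardinal.mk_le_of_injective this
  obtain ⟨e2⟩ : Nonempty ((SAᶜ : Set A) ≃ (SPᶜ : Set P)) := by
    rw [← Cardinal.eq, hcA, hcP]
  classical
  let g : A ≃ P := (Equiv.Set.sumCompl SA).symm.trans ((e1.sumCongr e2).trans (Equiv.Set.sumCompl SP))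
  refine ⟨g, ?_⟩
  intro j hj z hz
  let i : I' := Sum.inl (⟨j, hj⟩, ⟨z, hz⟩)
  refine ⟨a (i, true), ha' (i, true), ?_⟩
  have h1 : g (a (i, true)) = p (i, true) := by
    have hmem : a (i, true) ∈ SA := ⟨i, rfl⟩
    show (Equiv.Set.sumCompl SP) ((e1.sumCongr e2) ((Equiv.Set.sumCompl SA).symm (a (i, true)))) = _
    rw [Equiv.Set.sumCompl_symm_apply_of_mem hmem]
    simp only [Equiv.sumCongr_apply, Sum.map_inl, Equiv.Set.sumCompl_apply_inl]
    have h2 : (Equiv.ofInjective _ hat).symm ⟨a (i, true), hmem⟩ = i :=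
      Equiv.ofInjective_symm_apply hat i
    show ((Equiv.ofInjective _ hpt) ((Equiv.ofInjective _ hat).symm ⟨a (i, true), hmem⟩) : P) = _
    rw [h2]
    rfl
  rw [h1]
  exact hp' (i, true)

end Pool.Agent.R745.CB.Bern
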