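import Pool.Agent.R745.CB.Stms

/-!
The cross section `X` of the bundle: closed unit ball together with a Cantor set on a ray.
-/

namespace Pool.Agent.R745.CB

open Set Topology Metric Cardinal

theorem cantor_no_Ioo {a b : ℝ} (h : a < b) : ¬ Ioo a b ⊆ cantorSet := by
  intro hsub
  have htd : TotallyDisconnectedSpace cantorSet :=
    cantorSetHomeomorphNatToBool.symm.totallyDisconnectedSpace
  have htd' : IsTotallyDisconnected cantorSet := totallyDisconnectedSpace_subtype_iff.1 htd
  have hs := htd' (Ioo a b) hsub isPreconnected_Ioo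
  obtain ⟨c, hc1, hc2⟩ := exists_between h
  obtain ⟨d, hd1, hd2⟩ := exists_between hc2
  have := hs ⟨hc1, hc2⟩ ⟨hc1.trans hd1, hd2⟩
  exact (ne_of_lt hd1) this

/-- The Cantor set on the ray through `e`. -/
def ray (E : Type) [NormedAddCommGroup E] [NormedSpace ℝ E] (e : E) : Set E :=
  (fun s : ℝ => (2 + s) • e) '' cantorSet

/-- The cross section. -/
def cross (E : Type) [NormedAddCommGroup E] [NormedSpace ℝ E] (e : E) : Set E :=
  closedBall 0 1 ∪ ray E e

section
variable {E : Type} [NormedAddCommGroup E] [NormedSpace ℝ E] {e : E}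

theorem ray_norm (he : ‖e‖ = 1) {s : ℝ} (hs : s ∈ cantorSet) : ‖(2 + s) • e‖ = 2 + s := by
  have := cantorSet_subset_unitInterval hs
  rw [norm_smul, he, mul_one, Real.norm_eq_abs, abs_of_nonneg (by linarith [this.1])]

theorem cross_compact [FiniteDimensional ℝ E] : IsCompact (cross E e) := by
  have : ProperSpace E := FiniteDimensional.proper ℝ E
  refine (isCompact_closedBall 0 1).union ?_
  exact isCompact_cantorSet.image (by fun_prop)

theorem interior_cross (he : ‖e‖ = 1) : interior (cross E e) = ball 0 1 := by
  apply Subset.antisymm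
  · intro x hx
    by_contra hxb
    have hx1 : 1 ≤ ‖x‖ := by simpa using hxb
    obtain ⟨ε, hε, hball⟩ := Metric.isOpen_iff.1 isOpen_interior x hx
    have hball' : ball x ε ⊆ cross E e := hball.trans interior_subset
    rcases hball' (mem_ball_self hε) with h | h
    · -- norm is one
      have hx2 : ‖x‖ = 1 := le_antisymm (by simpa using h) hx1
      set δ : ℝ := min (ε / 2) (1 / 2) with hδ
      have hδ0 : 0 < δ := by positivity
      have hδ1 : δ ≤ ε / 2 := min_le_left _ _
      have hδ2 : δ ≤ 1 / 2 := min_le_right _ _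
      have hn : ‖(1 + δ) • x‖ = 1 + δ := by
        rw [norm_smul, hx2, mul_one, Real.norm_eq_abs, abs_of_pos (by linarith)]
      have hmem : (1 + δ) • x ∈ ball x ε := by
        rw [mem_ball, dist_eq_norm]
        have : (1 + δ) • x - x = δ • x := by rw [add_smul, one_smul]; abel
        rw [this, norm_smul, hx2, mul_one, Real.norm_eq_abs, abs_of_pos hδ0]
        linarith
      rcases hball' hmem with h1 | ⟨s, hs, h1⟩
      · have : ‖(1 + δ) • x‖ ≤ 1 := by simpa using h1
        linarith
      · have h2 := ray_norm he hs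
        have hs0 := (cantorSet_subset_unitInterval hs).1
        simp only at h1
        rw [h1, hn] at h2
        linarith
    · obtain ⟨s, hs, hsx⟩ := h
      simp only at hsx
      have hs0 := cantorSet_subset_unitInterval hs
      set δ : ℝ := min (ε / 2) (1 / 2) with hδ
      have hδ0 : 0 < δ := by positivity
      have hδ1 : δ ≤ ε / 2 := min_le_left _ _
      have hδ2 : δ ≤ 1 / 2 := min_le_right _ _
      refine cantor_no_Ioo (a := s - δ) (b := s + δ) (by linarith) ?_
      intro r hr
      have habs : |r - s| < δ := by rw [abs_lt]; constructor <;> linarith [hr.1, hr.2]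
      have hmem : (2 + r) • e ∈ ball x ε := by
        rw [mem_ball, dist_eq_norm, ← hsx, ← sub_smul, norm_smul, he, mul_one,
          Real.norm_eq_abs]
        rw [show 2 + r - (2 + s) = r - s by ring]
        linarith
      have hnr : ‖(2 + r) • e‖ = 2 + r := by
        rw [norm_smul, he, mul_one, Real.norm_eq_abs, abs_of_nonneg]
        linarith [hr.1, hs0.1]
      rcases hball' hmem with h1 | ⟨s', hs', h1⟩
      · have : ‖(2 + r) • e‖ ≤ 1 := by simpa using h1
        rw [hnr] at this
        linarith [hr.1, hs0.1]
      · simp only at h1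
        have h2 := ray_norm he hs'
        rw [h1, hnr] at h2
        have : r = s' := by linarith
        rw [this]; exact hs'
  · refine interior_maximal ?_ isOpen_ball
    exact ball_subset_closedBall.trans subset_union_left

end

/-- The cardinality of a finite dimensional space times the line. -/
theorem mk_le_continuum (V : Type) [NormedAddCommGroup V] [NormedSpace ℝ V]
    [FiniteDimensional ℝ V] : #V ≤ 𝔠 := by
  have h : #V = #(Fin (Module.finrank ℝ V) → ℝ) :=
    mk_congr (Module.finBasis ℝ V).equivFun.toEquiv
  rw [h, mk_pi, prod_const, lift_id, lift_id, mk_fin, mk_real]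
  exact_mod_cast power_nat_le aleph0_le_continuum

/-- There are at most continuum many closed sets. -/
theorem mk_closed_le (V : Type) [NormedAddCommGroup V] [NormedSpace ℝ V]
    [FiniteDimensional ℝ V] : #{Z : Set V | IsClosed Z} ≤ 𝔠 := by
  have : ProperSpace V := FiniteDimensional.proper ℝ V
  have : SecondCountableTopology V := secondCountable_of_proper
  set b := TopologicalSpace.countableBasis V with hb
  have hbc : b.Countable := TopologicalSpace.countable_countableBasis V
  have hinj : Function.Injective
      (fun Z : {Z : Set V | IsClosed Z} => {u : b | (u : Set V) ⊆ (Z : Set V)ᶜ}) := by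
    rintro ⟨Z, hZ⟩ ⟨Z', hZ'⟩ h
    simp only at h
    have key : ∀ Z : Set V, IsClosed Z → Zᶜ = ⋃₀ {u | u ∈ b ∧ u ⊆ Zᶜ} := fun Z hZ =>
      (TopologicalSpace.isBasis_countableBasis V).open_eq_sUnion' hZ.isOpen_compl
    have h1 : Zᶜ = Z'ᶜ := by
      rw [key Z hZ, key Z' hZ']
      congr 1
      ext u
      constructor
      · rintro ⟨h2, h3⟩
        have : (⟨u, h2⟩ : b) ∈ {u : b | (u : Set V) ⊆ Zᶜ} := h3
        rw [h] at this
        exact ⟨h2, this⟩
      · rintro ⟨h2, h3⟩
        have : (⟨u, h2⟩ : b) ∈ {u : b | (u : Set V) ⊆ Z'ᶜ} := h3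
        rw [← h] at this
        exact ⟨h2, this⟩
    simpa using h1
  calc #{Z : Set V | IsClosed Z} ≤ #(Set b) := mk_le_of_injective hinj
    _ = 2 ^ #b := mk_set
    _ ≤ 2 ^ ℵ₀ := power_le_power_left two_ne_zero (by simpa using hbc.to_subtype)
    _ = 𝔠 := two_power_aleph0

end Pool.Agent.R745.CB
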