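import Pool.Agent.R745.CB.Main

namespace Pool.Agent.R745.CB

open Set Topology Metric Cardinal

/-- A (not necessarily continuous) map is called connected if it maps every connected subset of its
domain onto a connected subset of its codomain. -/
def ConnectedMap {X Y : Type*} [TopologicalSpace X] [TopologicalSpace Y] (f : X → Y) : Prop :=
  ∀ S : Set X, IsConnected S → IsConnected (f '' S)

theorem ConnectedMap.conj {V W : Type*} [TopologicalSpace V] [TopologicalSpace W] (φ : V ≃ₜ W)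
    {f : V → V} (hf : ConnectedMap f) : ConnectedMap (φ ∘ f ∘ φ.symm) := by
  intro S hS
  rw [image_comp, image_comp]
  exact (hf _ (hS.image _ φ.symm.continuous.continuousOn)).image _ φ.continuous.continuousOn

/-- On the line, the inverse of a connected bijection is connected. -/
theorem line_case (f : ℝ ≃ ℝ) (hf : ConnectedMap f) : ConnectedMap f.symm := by
  intro S hS
  refine ⟨hS.nonempty.image _, ?_⟩
  rw [isPreconnected_iff_ordConnected]
  have hSo : OrdConnected S := isPreconnected_iff_ordConnected.1 hS.isPreconnected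
  have hcon : ∀ a b : ℝ, a ≤ b → OrdConnected (f '' Icc a b) := fun a b hab =>
    isPreconnected_iff_ordConnected.1
      (hf (Icc a b) ⟨⟨a, left_mem_Icc.2 hab⟩, isPreconnected_Icc⟩).isPreconnected
  have hmem : ∀ x, x ∈ f.symm '' S ↔ f x ∈ S := by
    intro x
    constructor
    · rintro ⟨y, hy, rfl⟩
      rwa [Equiv.apply_symm_apply]
    · intro h
      exact ⟨f x, h, Equiv.symm_apply_apply _ _⟩
  constructor
  intro a ha c hc b hb
  rw [hmem] at ha hc ⊢
  -- `f b` lies between `f a` and `f c`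
  have hab := hb.1
  have hbc := hb.2
  have himg : ∀ {u v w : ℝ}, u ≤ v → f w ∈ f '' Icc u v → w ∈ Icc u v := by
    rintro u v w - ⟨x, hx, hxw⟩
    rwa [f.injective hxw] at hx
  have hA : f a ∈ f '' Icc a b := mem_image_of_mem _ (left_mem_Icc.2 hab)
  have hB : f b ∈ f '' Icc a b := mem_image_of_mem _ (right_mem_Icc.2 hab)
  have hB' : f b ∈ f '' Icc b c := mem_image_of_mem _ (left_mem_Icc.2 hbc)
  have hC : f c ∈ f '' Icc b c := mem_image_of_mem _ (right_mem_Icc.2 hbc)
  -- `f c` is strictly between `f a` and `f b` only if `c ≤ b`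
  have h1 : f c ∈ uIcc (f a) (f b) → f b ∈ S := by
    intro h
    have : f c ∈ f '' Icc a b := (hcon a b hab).uIcc_subset hA hB h
    have hcb := (himg hab this).2
    have : b = c := le_antisymm hbc hcb
    rwa [this]
  have h2 : f a ∈ uIcc (f b) (f c) → f b ∈ S := by
    intro h
    have : f a ∈ f '' Icc b c := (hcon b c hbc).uIcc_subset hB' hC h
    have hba := (himg hbc this).1
    have : b = a := le_antisymm hba hab
    rwa [this]
  rcases le_total (f a) (f b) with h3 | h3 <;> rcases le_total (f b) (f c) with h4 | h4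
  · exact hSo.out ha hc ⟨h3, h4⟩
  · rcases le_total (f a) (f c) with h5 | h5
    · exact h1 (mem_uIcc.2 (Or.inl ⟨h5, h4⟩))
    · exact h2 (mem_uIcc.2 (Or.inr ⟨h5, h3⟩))
  · rcases le_total (f a) (f c) with h5 | h5
    · exact h2 (mem_uIcc.2 (Or.inl ⟨h3, h5⟩))
    · exact h1 (mem_uIcc.2 (Or.inr ⟨h4, h5⟩))
  · exact hSo.out hc ha ⟨h4, h3⟩

theorem final (hCanal : StmCanal) (hBern : StmBern) (n : ℕ) (hn : 1 ≤ n) :
    (∃ f : EuclideanSpace ℝ (Fin n) ≃ EuclideanSpace ℝ (Fin n),
      ConnectedMap f ∧ ¬ ConnectedMap f.symm) ↔ 2 ≤ n := by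
  constructor
  · rintro ⟨f, hf, hf'⟩
    by_contra hlt
    have h1 : n = 1 := by omega
    subst h1
    let φ : EuclideanSpace ℝ (Fin 1) ≃ₜ ℝ :=
      (ContinuousLinearEquiv.ofFinrankEq (𝕜 := ℝ) (E := EuclideanSpace ℝ (Fin 1)) (F := ℝ)
        (by simp)).toHomeomorph
    let g : ℝ ≃ ℝ := (φ.symm.toEquiv.trans f).trans φ.toEquiv
    have hg : ConnectedMap g := hf.conj φ
    have hg' := line_case g hg
    apply hf'
    have h2 := hg'.conj φ.symm
    have h3 : (φ.symm ∘ g.symm ∘ φ.symm.symm) = f.symm := by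
      ext1 x
      simp [g]
    rwa [h3] at h2
  · intro h2
    obtain ⟨m, rfl⟩ : ∃ m, n = m + 1 := ⟨n - 1, by omega⟩
    have hm : 1 ≤ m := by omega
    have : Nonempty (Fin m) := ⟨⟨0, hm⟩⟩
    have : Nontrivial (EuclideanSpace ℝ (Fin m)) := inferInstance
    let φ : (EuclideanSpace ℝ (Fin m) × ℝ) ≃ₜ EuclideanSpace ℝ (Fin (m + 1)) :=
      (ContinuousLinearEquiv.ofFinrankEq (𝕜 := ℝ) (E := EuclideanSpace ℝ (Fin m) × ℝ)
        (F := EuclideanSpace ℝ (Fin (m + 1))) (by simp)).toHomeomorph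
    obtain ⟨f, hf, S, hS, hS'⟩ := mainE hCanal hBern (EuclideanSpace ℝ (Fin m))
    have hfc : ConnectedMap f := fun C hC => ⟨hC.nonempty.image _, hf C hC.isPreconnected⟩
    let g : EuclideanSpace ℝ (Fin (m + 1)) ≃ EuclideanSpace ℝ (Fin (m + 1)) :=
      (φ.symm.toEquiv.trans f).trans φ.toEquiv
    refine ⟨g, hfc.conj φ, ?_⟩
    intro hcon
    have h3 := hcon.conj φ.symm
    have h4 : (φ.symm ∘ g.symm ∘ φ.symm.symm) = f.symm := by
      ext1 x
      simp [g]
    rw [h4] at h3
    exact hS' (h3 S hS).isPreconnected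

end Pool.Agent.R745.CB
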