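import Pool.Agent.R745.CB.Stms

namespace Pool.Agent.R745.CB

open Set Topology Metric

/-- One-sided step: if the value at a point `w` of the zero set lies in the open set `U`, then the
part of `C` off the zero set is mapped into `U`. -/
theorem glue_side {V W : Type} [TopologicalSpace V] [MetricSpace W] (ρ : V → ℝ) (f : V → W)
    (hρ : Continuous ρ) (hf : ContinuousOn f {z | 0 < ρ z})
    (hD : ∀ w, ρ w = 0 → ∀ r > 0, ∀ ε > 0, ∃ c, 0 < c ∧ c < ε ∧
      ∀ z, ρ z = c → dist (f z) (f w) < r)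
    (C : Set V) (hC : IsPreconnected C) (U U' : Set W) (hU : IsOpen U) (hU' : IsOpen U')
    (hcov : f '' C ⊆ U ∪ U') (hdis : f '' C ∩ (U ∩ U') = ∅)
    (w : V) (hw : w ∈ C) (hw0 : ρ w = 0) (hwU : f w ∈ U) :
    ∀ z ∈ C, 0 < ρ z → f z ∈ U := by
  intro z hz hz0
  by_contra hzU
  have hzU' : f z ∈ U' := (hcov (mem_image_of_mem f hz)).resolve_left hzU
  obtain ⟨r, hr, hball⟩ := Metric.isOpen_iff.1 hU (f w) hwU
  obtain ⟨c, hc0, hcz, hc⟩ := hD w hw0 r hr (ρ z) hz0
  -- open sets separating
  have hpos : IsOpen {x : V | c < ρ x} := isOpen_lt continuous_const hρ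
  have hfc : ContinuousOn f {x : V | 0 < ρ x} := hf
  have hpos0 : IsOpen {x : V | 0 < ρ x} := isOpen_lt continuous_const hρ
  set A : Set V := {x | c < ρ x} ∩ ({x | 0 < ρ x} ∩ f ⁻¹' U') with hA
  have hAo : IsOpen A := hpos.inter (hfc.isOpen_inter_preimage hpos0 hU')
  set B : Set V := {x | ρ x < c} ∪ ({x | 0 < ρ x} ∩ f ⁻¹' U) with hB
  have hBo : IsOpen B :=
    (isOpen_lt hρ continuous_const).union (hfc.isOpen_inter_preimage hpos0 hU)
  have hcovC : C ⊆ A ∪ B := by
    intro x hx
    rcases lt_trichotomy (ρ x) c with h | h | h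
    · exact Or.inr (Or.inl h)
    · right; right
      refine ⟨by show 0 < ρ x; rw [h]; exact hc0, ?_⟩
      exact hball (by simpa [Metric.mem_ball] using hc x h)
    · rcases hcov (mem_image_of_mem f hx) with h1 | h1
      · exact Or.inr (Or.inr ⟨hc0.trans h, h1⟩)
      · exact Or.inl ⟨h, hc0.trans h, h1⟩
  have h1 : (C ∩ A).Nonempty := ⟨z, hz, hcz, hz0, hzU'⟩
  have h2 : (C ∩ B).Nonempty := ⟨w, hw, Or.inl (by show ρ w < c; rw [hw0]; exact hc0)⟩
  obtain ⟨x, hxC, hxA, hxB⟩ := hC A B hAo hBo hcovC h1 h2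
  rcases hxB with h | h
  · exact (lt_asymm (show c < ρ x from hxA.1) (show ρ x < c from h)).elim
  · have : f x ∈ f '' C ∩ (U ∩ U') := ⟨mem_image_of_mem f hxC, h.2, hxA.2.2⟩
    rw [hdis] at this
    exact this

theorem glue : StmGlue := by
  intro V W _ _ ρ f hρ hρ0 hf hD hL C hC
  rw [isPreconnected_iff_subset_of_disjoint]
  intro U U' hU hU' hcov hdis
  by_cases hex : ∃ w ∈ C, ρ w = 0
  · obtain ⟨w, hw, hw0⟩ := hex
    by_cases hex2 : ∃ z ∈ C, 0 < ρ z
    · obtain ⟨z, hz, hz0⟩ := hex2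
      -- side of `w`
      have side : ∀ w ∈ C, ρ w = 0 → (f w ∈ U → ∀ z ∈ C, 0 < ρ z → f z ∈ U) := fun w hw hw0 h =>
        glue_side ρ f hρ hf hD C hC U U' hU hU' hcov hdis w hw hw0 h
      have side' : ∀ w ∈ C, ρ w = 0 → (f w ∈ U' → ∀ z ∈ C, 0 < ρ z → f z ∈ U') :=
        fun w hw hw0 h => glue_side ρ f hρ hf hD C hC U' U hU' hU (by rwa [union_comm])
          (by rwa [inter_comm U' U]) w hw hw0 h
      have nd : ∀ x ∈ C, f x ∈ U → f x ∈ U' → False := by
        intro x hx h1 h2
        have : f x ∈ f '' C ∩ (U ∩ U') := ⟨mem_image_of_mem f hx, h1, h2⟩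
        rw [hdis] at this
        exact this
      rcases hcov (mem_image_of_mem f hz) with hzU | hzU
      · left
        rintro _ ⟨x, hx, rfl⟩
        rcases (hρ0 x).lt_or_eq with h | h
        · -- `ρ x > 0`
          rcases hcov (mem_image_of_mem f hw) with h1 | h1
          · exact side w hw hw0 h1 x hx h
          · exact (nd z hz hzU (side' w hw hw0 h1 z hz hz0)).elim
        · rcases hcov (mem_image_of_mem f hx) with h1 | h1
          · exact h1
          · exact (nd z hz hzU (side' x hx h.symm h1 z hz hz0)).elim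
      · right
        rintro _ ⟨x, hx, rfl⟩
        rcases (hρ0 x).lt_or_eq with h | h
        · rcases hcov (mem_image_of_mem f hw) with h1 | h1
          · exact (nd z hz (side w hw hw0 h1 z hz hz0) hzU).elim
          · exact side' w hw hw0 h1 x hx h
        · rcases hcov (mem_image_of_mem f hx) with h1 | h1
          · exact (nd z hz (side x hx h.symm h1 z hz hz0) hzU).elim
          · exact h1
    · have hsub : C ⊆ {z | ρ z = 0} := by
        intro x hx
        by_contra h
        exact hex2 ⟨x, hx, lt_of_le_of_ne (hρ0 x) (Ne.symm h)⟩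
      have := hL C hC hsub
      rw [isPreconnected_iff_subset_of_disjoint] at this
      exact this U U' hU hU' hcov hdis
  · have hsub : C ⊆ {z | 0 < ρ z} := by
      intro x hx
      refine lt_of_le_of_ne (hρ0 x) ?_
      intro h
      exact hex ⟨x, hx, h.symm⟩
    have := hC.image f (hf.mono hsub)
    rw [isPreconnected_iff_subset_of_disjoint] at this
    exact this U U' hU hU' hcov hdis

end Pool.Agent.R745.CB
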