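import Pool.Agent.R745.CB.Stms

namespace Pool.Agent.R745.CB

open Set Topology Metric

theorem par : StmPar := by
  intro E _ _
  set r : E × ℝ → ℝ := fun z => Real.sqrt (‖z.1‖ ^ 2 + z.2 ^ 2) with hr
  have hr2 : ∀ z, r z ^ 2 = ‖z.1‖ ^ 2 + z.2 ^ 2 := fun z => Real.sq_sqrt (by positivity)
  have hr0 : ∀ z, 0 ≤ r z := fun z => Real.sqrt_nonneg _
  have hrz : ∀ z, z.2 ≤ r z := fun z => Real.le_sqrt_of_sq_le (by nlinarith [norm_nonneg z.1])
  have hrz' : ∀ z, -z.2 ≤ r z := fun z => Real.le_sqrt_of_sq_le (by nlinarith [norm_nonneg z.1])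
  set ρ : E × ℝ → ℝ := fun z => Real.sqrt ((r z - z.2) / 2) with hρ
  have hρ2 : ∀ z, ρ z ^ 2 = (r z - z.2) / 2 := fun z =>
    Real.sq_sqrt (by linarith [hrz z])
  have hρ0 : ∀ z, 0 ≤ ρ z := fun z => Real.sqrt_nonneg _
  have hcont : Continuous ρ := by
    have : Continuous r := by fun_prop
    fun_prop
  refine ⟨ρ, fun z => (1 / (2 * ρ z)) • z.1, hcont, hρ0, ?_, ?_, ?_⟩
  · intro z
    constructor
    · intro h
      have h1 : r z = z.2 := by
        have := hρ2 z
        rw [h] at this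
        linarith
      have h2 := hr2 z
      rw [h1] at h2
      have h3 : ‖z.1‖ ^ 2 = 0 := by linarith
      refine ⟨by simpa using h3, ?_⟩
      rw [← h1]; exact hr0 z
    · rintro ⟨h1, h2⟩
      have h3 : r z = z.2 := by
        simp only [hr, h1, norm_zero]
        rw [show (0:ℝ) ^ 2 + z.2 ^ 2 = z.2 ^ 2 by ring]
        exact Real.sqrt_sq h2
      have : ρ z ^ 2 = 0 := by rw [hρ2 z, h3]; ring
      simpa using this
  · refine ContinuousOn.smul ?_ continuous_fst.continuousOn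
    refine ContinuousOn.div continuousOn_const (by fun_prop) ?_
    intro z hz
    have : 0 < ρ z := hz
    positivity
  · intro u c hc
    have key : r ((2 * c) • u, ‖u‖ ^ 2 - c ^ 2) = ‖u‖ ^ 2 + c ^ 2 := by
      simp only [hr, norm_smul, Real.norm_eq_abs]
      rw [show (|2 * c| * ‖u‖) ^ 2 + (‖u‖ ^ 2 - c ^ 2) ^ 2 = (‖u‖ ^ 2 + c ^ 2) ^ 2 by
        rw [mul_pow, sq_abs]; ring]
      exact Real.sqrt_sq (by positivity)
    have keyρ : ρ ((2 * c) • u, ‖u‖ ^ 2 - c ^ 2) = c := by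
      have : ρ ((2 * c) • u, ‖u‖ ^ 2 - c ^ 2) ^ 2 = c ^ 2 := by
        rw [hρ2, key]; ring
      exact (pow_left_inj₀ (hρ0 _) hc.le (by norm_num)).1 this
    refine ⟨((2 * c) • u, ‖u‖ ^ 2 - c ^ 2), ⟨keyρ, ?_⟩, ?_⟩
    · simp only [keyρ]
      rw [smul_smul]
      rw [show 1 / (2 * c) * (2 * c) = 1 by field_simp]
      simp
    · rintro z ⟨h1, h2⟩
      have h3 : z.1 = (2 * c) • u := by
        rw [← h2]
        simp only [h1]
        rw [smul_smul]
        rw [show 2 * c * (1 / (2 * c)) = 1 by field_simp]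
        simp
      have h4 : r z = 2 * c ^ 2 + z.2 := by
        have := hρ2 z
        rw [h1] at this
        linarith
      have h5 := hr2 z
      rw [h4, h3, norm_smul, mul_pow, Real.norm_eq_abs, sq_abs] at h5
      have h6 : z.2 = ‖u‖ ^ 2 - c ^ 2 := by
        have : 4 * c ^ 2 * (c ^ 2 + z.2) = 4 * c ^ 2 * ‖u‖ ^ 2 := by linarith
        have hc2 : (4 * c ^ 2) ≠ 0 := by positivity
        have := mul_left_cancel₀ hc2 this
        linarith
      exact Prod.ext h3 h6

end Pool.Agent.R745.CB
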