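import Pool.Agent.R745.CB.Stms

namespace Pool.Agent.R745.CB

open Set Topology Metric Cardinal

theorem sep : StmSep := by
  intro V _ P hP S κ hS hκ hκP hκd hκdis A hAP hA
  rw [isPreconnected_iff_subset_of_disjoint]
  intro U U' hU hU' hcov hdis
  by_contra hcon
  rw [not_or] at hcon
  obtain ⟨h1, h2⟩ := hcon
  obtain ⟨a, haA, haU⟩ := not_subset.1 h1
  obtain ⟨b, hbA, hbU'⟩ := not_subset.1 h2
  have haU' : a ∈ U' := (hcov haA).resolve_left haU
  have hbU : b ∈ U := (hcov hbA).resolve_right hbU'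
  -- separated sets
  have hs1 : Disjoint (closure (A ∩ U)) (A ∩ U') := by
    rw [Set.disjoint_left]
    rintro x hx ⟨hxA, hxU'⟩
    obtain ⟨y, hy1, hy2⟩ := mem_closure_iff.1 hx U' hU' hxU'
    have : y ∈ A ∩ (U ∩ U') := ⟨hy2.1, hy2.2, hy1⟩
    rw [hdis] at this
    exact this
  have hs2 : Disjoint (A ∩ U) (closure (A ∩ U')) := by
    rw [Set.disjoint_left]
    rintro x ⟨hxA, hxU⟩ hx
    obtain ⟨y, hy1, hy2⟩ := mem_closure_iff.1 hx U hU hxU
    have : y ∈ A ∩ (U ∩ U') := ⟨hy2.1, hy1, hy2.2⟩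
    rw [hdis] at this
    exact this
  have hsep : SeparatedNhds (A ∩ U) (A ∩ U') :=
    separatedNhds_iff_disjoint.2 (CompletelyNormalSpace.completely_normal hs1 hs2)
  obtain ⟨O, O', hO, hO', hAO, hAO', hOO⟩ := hsep
  have hAcov : A ⊆ O ∪ O' := by
    intro x hx
    rcases hcov hx with h | h
    · exact Or.inl (hAO ⟨hx, h⟩)
    · exact Or.inr (hAO' ⟨hx, h⟩)
  set Z : Set V := P \ (O ∪ O') with hZ
  have hZc : IsClosed Z := hP.sdiff (hO.union hO')
  -- each `κ s` meets `Z`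
  have hmeet : ∀ s, (κ s ∩ Z).Nonempty := by
    intro s
    by_contra hne
    have hsub : κ s ⊆ O ∪ O' := by
      intro x hx
      by_contra hx'
      exact hne ⟨x, hx, hκP s hx, hx'⟩
    have hb' : (κ s ∩ O).Nonempty := by
      have : b ∈ closure (κ s) := hκd s (hAP hbA)
      obtain ⟨y, hy1, hy2⟩ := mem_closure_iff.1 this O hO (hAO ⟨hbA, hbU⟩)
      exact ⟨y, hy2, hy1⟩
    have ha' : (κ s ∩ O').Nonempty := by
      have : a ∈ closure (κ s) := hκd s (hAP haA)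
      obtain ⟨y, hy1, hy2⟩ := mem_closure_iff.1 this O' hO' (hAO' ⟨haA, haU'⟩)
      exact ⟨y, hy2, hy1⟩
    obtain ⟨y, -, hy1, hy2⟩ := hκ s O O' hO hO' hsub hb' ha'
    exact (Set.disjoint_left.1 hOO) hy1 hy2
  choose z hz using hmeet
  have hinj : Function.Injective (fun s => (⟨z s, (hz s).2⟩ : Z)) := by
    intro s s' hss
    by_contra hne
    have heq : z s = z s' := congrArg Subtype.val hss
    exact (Set.disjoint_left.1 (hκdis s s' hne)) (hz s).1 (heq ▸ (hz s').1)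
  have hcard : 𝔠 ≤ #Z := hS.trans (mk_le_of_injective hinj)
  obtain ⟨x, hxA, hxP, hxn⟩ := hA Z hZc sdiff_subset hcard
  exact hxn (hAcov hxA)

end Pool.Agent.R745.CB
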