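import Pool.Agent.R745.CB.Cross
import Pool.Agent.R745.CB.Par
import Pool.Agent.R745.CB.Glue
import Pool.Agent.R745.CB.Sep

namespace Pool.Agent.R745.CB

open Set Topology Metric Cardinal

section
variable {E : Type} [NormedAddCommGroup E]

/-- The first property of the canal map. -/
def Loc (X : Set E) (Φ : E × ℝ → E × ℝ) : Prop :=
  ∀ k : ℕ, ∃ Ψ : (E × ℝ) ≃ₜ (E × ℝ), ∀ x ∈ X, ∀ t ∈ Icc (0 : ℝ) k, Φ (x, t) = Ψ (x, t)

theorem Loc.inj {X : Set E} {Φ : E × ℝ → E × ℝ} (h : Loc X Φ) {x x' : E} {t t' : ℝ}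
    (hx : x ∈ X) (hx' : x' ∈ X) (ht : 0 ≤ t) (ht' : 0 ≤ t') (heq : Φ (x, t) = Φ (x', t')) :
    x = x' ∧ t = t' := by
  obtain ⟨k, hk⟩ := exists_nat_ge (max t t')
  obtain ⟨Ψ, hΨ⟩ := h k
  rw [hΨ x hx t ⟨ht, (le_max_left _ _).trans hk⟩,
    hΨ x' hx' t' ⟨ht', (le_max_right _ _).trans hk⟩] at heq
  have := Ψ.injective heq
  exact ⟨congrArg Prod.fst this, congrArg Prod.snd this⟩

theorem Loc.open_image {X : Set E} {Φ : E × ℝ → E × ℝ} (h : Loc X Φ) :
    IsOpen (Φ '' (interior X ×ˢ Ioi (0 : ℝ))) := by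
  rw [isOpen_iff_forall_mem_open]
  rintro _ ⟨⟨x, t⟩, ⟨hx, ht⟩, rfl⟩
  obtain ⟨k, hk⟩ := exists_nat_gt t
  obtain ⟨Ψ, hΨ⟩ := h k
  refine ⟨Ψ '' (interior X ×ˢ Ioo (0 : ℝ) k), ?_, ?_, ?_⟩
  · rintro _ ⟨⟨y, s⟩, ⟨hy, hs⟩, rfl⟩
    exact ⟨(y, s), ⟨hy, hs.1⟩, hΨ y (interior_subset hy) s ⟨hs.1.le, hs.2.le⟩⟩
  · exact Ψ.isOpenMap _ (isOpen_interior.prod isOpen_Ioo)
  · exact ⟨(x, t), ⟨hx, ht, hk⟩, (hΨ x (interior_subset hx) t ⟨le_of_lt ht, hk.le⟩).symm⟩

theorem Loc.continuousOn {X : Set E} {Φ : E × ℝ → E × ℝ} (h : Loc X Φ) :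
    ContinuousOn Φ (X ×ˢ Ici (0 : ℝ)) := by
  rintro ⟨x, t⟩ ⟨hx, ht⟩
  obtain ⟨k, hk⟩ := exists_nat_gt t
  obtain ⟨Ψ, hΨ⟩ := h k
  have h1 : ContinuousWithinAt Ψ (X ×ˢ Ici (0 : ℝ)) (x, t) :=
    Ψ.continuous.continuousAt.continuousWithinAt
  refine h1.congr_of_eventuallyEq ?_ (hΨ x hx t ⟨ht, hk.le⟩)
  have h2 : ∀ᶠ z : E × ℝ in 𝓝[X ×ˢ Ici (0 : ℝ)] (x, t), z.2 < k :=
    nhdsWithin_le_nhds (continuous_snd.continuousAt.eventually_lt_const hk)
  filter_upwards [h2, self_mem_nhdsWithin] with z hz1 hz2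
  exact hΨ z.1 hz2.1 z.2 ⟨hz2.2, hz1.le⟩

end

theorem mainE (hCanal : StmCanal) (hBern : StmBern) (E : Type) [NormedAddCommGroup E]
    [NormedSpace ℝ E] [FiniteDimensional ℝ E] [Nontrivial E] :
    ∃ f : (E × ℝ) ≃ (E × ℝ), (∀ C, IsPreconnected C → IsPreconnected (f '' C)) ∧
      ∃ S, IsConnected S ∧ ¬ IsPreconnected (f.symm '' S) := by
  obtain ⟨e, he⟩ : ∃ e : E, ‖e‖ = 1 := exists_norm_eq E zero_le_one
  set X := cross E e with hX
  have hint : interior X = ball 0 1 := interior_cross he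
  obtain ⟨Φ, hloc, hden⟩ := hCanal E X cross_compact
  have hloc : Loc X Φ := hloc
  obtain ⟨ρ, θ, hρc, hρ0, hρz, hθc, hρθ⟩ := par E
  set G : Set (E × ℝ) := Φ '' (interior X ×ˢ Ioi (0 : ℝ)) with hG
  have hGo : IsOpen G := hloc.open_image
  set P : Set (E × ℝ) := Gᶜ with hP
  have hPc : IsClosed P := hGo.isClosed_compl
  have hbX : ball (0 : E) 1 ⊆ X := by rw [← hint]; exact interior_subset
  -- the canal part of the map
  set h : E → E := fun u => (Homeomorph.unitBall u : E) with hh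
  have hhb : ∀ u, h u ∈ ball (0 : E) 1 := fun u => (Homeomorph.unitBall u).2
  have hhc : Continuous h := continuous_subtype_val.comp Homeomorph.unitBall.continuous
  have hhi : Function.Injective h :=
    Subtype.val_injective.comp Homeomorph.unitBall.injective
  have hhs : ∀ x ∈ ball (0 : E) 1, ∃ u, h u = x := by
    intro x hx
    refine ⟨Homeomorph.unitBall.symm ⟨x, hx⟩, ?_⟩
    simp [hh]
  set f0 : E × ℝ → E × ℝ := fun z => Φ (h (θ z), (ρ z)⁻¹) with hf0
  have hf0c : ContinuousOn f0 {z | 0 < ρ z} := by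
    refine hloc.continuousOn.comp (t := X ×ˢ Ici (0 : ℝ)) ?_ ?_
    · refine ContinuousOn.prodMk (hhc.comp_continuousOn hθc) ?_
      exact hρc.continuousOn.inv₀ (fun z hz => ne_of_gt hz)
    · intro z hz
      exact ⟨hbX (hhb _), mem_Ici.2 (le_of_lt (inv_pos.2 hz))⟩
  have hf0G : ∀ z, 0 < ρ z → f0 z ∈ G := by
    intro z hz
    refine ⟨(h (θ z), (ρ z)⁻¹), ⟨?_, ?_⟩, rfl⟩
    · rw [hint]; exact hhb _
    · exact inv_pos.2 hz
  have hf0i : ∀ z z', 0 < ρ z → 0 < ρ z' → f0 z = f0 z' → z = z' := by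
    intro z z' hz hz' heq
    obtain ⟨h1, h2⟩ := hloc.inj (hbX (hhb _)) (hbX (hhb _)) (le_of_lt (inv_pos.2 hz))
      (le_of_lt (inv_pos.2 hz')) heq
    have h3 : θ z = θ z' := hhi h1
    have h4 : ρ z = ρ z' := inv_injective h2
    exact (hρθ (θ z') (ρ z') hz').unique ⟨h4, h3⟩ ⟨rfl, rfl⟩
  have hf0s : ∀ y ∈ G, ∃ z, 0 < ρ z ∧ f0 z = y := by
    rintro _ ⟨⟨x, t⟩, ⟨hx, ht⟩, rfl⟩
    rw [hint] at hx
    obtain ⟨u, hu⟩ := hhs x hx
    have ht : (0 : ℝ) < t := ht
    obtain ⟨z, ⟨hz1, hz2⟩, -⟩ := hρθ u t⁻¹ (inv_pos.2 ht)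
    refine ⟨z, by rw [hz1]; exact inv_pos.2 ht, ?_⟩
    simp only [hf0, hz1, hz2, hu, inv_inv]
  -- the rays
  set y : cantorSet → E := fun s => (2 + (s : ℝ)) • e with hy
  have hyX : ∀ s, y s ∈ X := fun s => Or.inr ⟨s, s.2, rfl⟩
  have hyn : ∀ s, ‖y s‖ = 2 + (s : ℝ) := fun s => ray_norm he s.2
  have hyb : ∀ s, y s ∉ ball (0 : E) 1 := by
    intro s hs
    have h1 : ‖y s‖ < 1 := by simpa using hs
    rw [hyn] at h1
    linarith [(cantorSet_subset_unitInterval s.2).1]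
  have hyinj : ∀ s s', y s = y s' → s = s' := by
    intro s s' h1
    have := hyn s
    rw [h1, hyn s'] at this
    exact Subtype.ext (by linarith)
  set κ : cantorSet → Set (E × ℝ) := fun s => (fun t : ℝ => Φ (y s, t)) '' Ioi 0 with hκ
  have hκP : ∀ s, κ s ⊆ P := by
    rintro s _ ⟨t, ht, rfl⟩ ⟨⟨x, t'⟩, ⟨hx, ht'⟩, heq⟩
    have h1 := (hloc.inj (interior_subset hx) (hyX s) (le_of_lt ht') (le_of_lt ht) heq).1
    rw [hint] at hx
    exact hyb s (h1 ▸ hx)
  have hκc : ∀ s, IsPreconnected (κ s) := by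
    intro s
    refine isPreconnected_Ioi.image _ ?_
    refine hloc.continuousOn.comp (t := X ×ˢ Ici (0 : ℝ)) (by fun_prop) ?_
    intro t ht
    exact ⟨hyX s, mem_Ici.2 (le_of_lt (mem_Ioi.1 ht))⟩
  have hκd : ∀ s, P ⊆ closure (κ s) := by
    intro s p hp
    rw [Metric.mem_closure_iff]
    intro r hr
    obtain ⟨t, -, ht, h1⟩ := hden p hp r hr 0
    exact ⟨_, ⟨t, ht, rfl⟩, by rw [dist_comm]; exact h1 _ (hyX s)⟩
  have hκdis : ∀ s s', s ≠ s' → Disjoint (κ s) (κ s') := by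
    intro s s' hss
    rw [Set.disjoint_left]
    rintro _ ⟨t, ht, rfl⟩ ⟨t', ht', heq⟩
    exact hss (hyinj _ _ (hloc.inj (hyX s') (hyX s) (le_of_lt ht') (le_of_lt ht) heq).1.symm)
  have hcant : 𝔠 ≤ Cardinal.mk cantorSet := by
    rw [mk_congr cantorSetEquivNatToBool]; simp
  -- cardinalities
  have hVle : #(E × ℝ) ≤ 𝔠 := mk_le_continuum (E × ℝ)
  have hPcard : #P = 𝔠 := by
    apply le_antisymm ((mk_set_le P).trans hVle)
    refine hcant.trans ?_
    refine mk_le_of_injective (f := fun s : cantorSet =>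
      (⟨Φ (y s, 1), hκP s ⟨1, mem_Ioi.2 one_pos, rfl⟩⟩ : P)) ?_
    intro s s' hss
    exact hyinj _ _ (hloc.inj (hyX s) (hyX s') zero_le_one zero_le_one (congrArg Subtype.val hss)).1
  set L : Set (E × ℝ) := {z | ρ z = 0} with hL
  have hLmem : ∀ r : ℝ, 0 ≤ r → ((0 : E), r) ∈ L := fun r hr => (hρz _).2 ⟨rfl, hr⟩
  have hsegcard : ∀ a b : ℝ, 0 ≤ a → a < b → 𝔠 ≤ #{w : L | (w : E × ℝ).2 ∈ Ioo a b} := by
    intro a b ha hab
    rw [← mk_Ioo_real hab]
    refine mk_le_of_injective (f := fun r : Ioo a b =>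
      (⟨⟨((0 : E), (r : ℝ)), hLmem r (ha.trans r.2.1.le)⟩, r.2⟩ :
        {w : L | (w : E × ℝ).2 ∈ Ioo a b})) ?_
    intro r r' hrr
    have h1 := congrArg (fun w : {w : L | (w : E × ℝ).2 ∈ Ioo a b} => ((w : L) : E × ℝ).2) hrr
    exact Subtype.ext h1
  have hLcard : #L = 𝔠 := by
    apply le_antisymm ((mk_set_le L).trans hVle)
    exact (hsegcard 0 1 le_rfl one_pos).trans (mk_set_le _)
  -- the Bernstein bijection
  set J : Set (Set L) := range (fun p : ℚ × ℚ => {w : L | (w : E × ℝ).2 ∈ Ioo (p.1 : ℝ) p.2}) ∩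
    {j | 𝔠 ≤ #j} with hJ
  have hJc : #J ≤ 𝔠 := by
    refine (mk_le_mk_of_subset inter_subset_left).trans ?_
    refine mk_range_le.trans ?_
    exact (mk_le_aleph0).trans aleph0_le_continuum
  set Z : Set (Set P) := {z | IsClosed (Subtype.val '' z) ∧ 𝔠 ≤ #z} with hZ
  have hZc : #Z ≤ 𝔠 := by
    refine le_trans ?_ (mk_closed_le (E × ℝ))
    refine mk_le_of_injective (f := fun z : Z =>
      (⟨Subtype.val '' (z : Set P), z.2.1⟩ : {Z : Set (E × ℝ) | IsClosed Z})) ?_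
    intro z z' hzz
    have h1 : Subtype.val '' (z : Set P) = Subtype.val '' (z' : Set P) :=
      congrArg Subtype.val hzz
    exact Subtype.ext (Subtype.val_injective.image_injective h1)
  obtain ⟨g, hg⟩ := hBern L P hLcard hPcard J Z hJc hZc (fun j hj => hj.2) (fun z hz => hz.2)
  -- the map
  classical
  set F : E × ℝ → E × ℝ := fun z => if hz : ρ z = 0 then (g ⟨z, hz⟩ : E × ℝ) else f0 z with hF
  have hF0 : ∀ z (hz : ρ z = 0), F z = g ⟨z, hz⟩ := fun z hz => by simp only [hF, hz, dite_true]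
  have hF1 : ∀ z, 0 < ρ z → F z = f0 z := fun z hz => by
    simp only [hF, ne_of_gt hz, dite_false]
  have hcase : ∀ z, ρ z = 0 ∨ 0 < ρ z := fun z => (hρ0 z).eq_or_lt.imp Eq.symm id
  have hFP : ∀ z, ρ z = 0 → F z ∈ P := fun z hz => by rw [hF0 z hz]; exact (g _).2
  have hFG : ∀ z, 0 < ρ z → F z ∈ G := fun z hz => by rw [hF1 z hz]; exact hf0G z hz
  have hbij : Function.Bijective F := by
    constructor
    · intro z z' heq
      rcases hcase z with hz | hz <;> rcases hcase z' with hz' | hz'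
      · rw [hF0 z hz, hF0 z' hz'] at heq
        have := g.injective (Subtype.ext heq)
        exact congrArg Subtype.val this
      · exact (hFP z hz (heq ▸ hFG z' hz')).elim
      · exact (hFP z' hz' (heq ▸ hFG z hz)).elim
      · rw [hF1 z hz, hF1 z' hz'] at heq
        exact hf0i z z' hz hz' heq
    · intro p
      by_cases hp : p ∈ G
      · obtain ⟨z, hz, hzp⟩ := hf0s p hp
        exact ⟨z, by rw [hF1 z hz, hzp]⟩
      · obtain ⟨w, hw⟩ := g.surjective ⟨p, hp⟩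
        exact ⟨w, by rw [hF0 w w.2]; exact congrArg Subtype.val hw⟩
  refine ⟨Equiv.ofBijective F hbij, ?_, ?_⟩
  · -- connectedness
    show ∀ C, IsPreconnected C → IsPreconnected (F '' C)
    refine glue (E × ℝ) (E × ℝ) ρ F hρc hρ0 (hf0c.congr (fun z hz => hF1 z hz)) ?_ ?_
    · intro w hw r hr ε hε
      obtain ⟨t, ht1, ht2, ht3⟩ := hden (F w) (hFP w hw) r hr (2 / ε)
      refine ⟨t⁻¹, inv_pos.2 ht2, ?_, ?_⟩
      · rw [inv_lt_comm₀ ht2 hε]
        refine lt_of_lt_of_le ?_ ht1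
        rw [inv_eq_one_div]
        exact div_lt_div_of_pos_right one_lt_two hε
      · intro z hz
        have hz0 : 0 < ρ z := by rw [hz]; exact inv_pos.2 ht2
        rw [hF1 z hz0]
        simp only [hf0, hz, inv_inv]
        exact ht3 _ (hbX (hhb _))
    · intro C hC hC0
      by_cases hsub : C.Subsingleton
      · exact (hsub.image F).isPreconnected
      · rw [Set.not_subsingleton_iff] at hsub
        obtain ⟨z, hz, z', hz', hne⟩ := hsub
        -- two points with different second coordinates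
        have h1 : ∀ w ∈ C, w.1 = 0 ∧ 0 ≤ w.2 := fun w hw => (hρz w).1 (hC0 hw)
        have hne2 : z.2 ≠ z'.2 := by
          intro h2
          exact hne (Prod.ext ((h1 z hz).1.trans (h1 z' hz').1.symm) h2)
        obtain ⟨a, b, ha, hab, hC2⟩ : ∃ a b : ℝ, 0 ≤ a ∧ a < b ∧
            ∀ r ∈ Icc a b, ((0 : E), r) ∈ C := by
          have himg : IsPreconnected (Prod.snd '' C) := hC.image _ continuous_snd.continuousOn
          have key : ∀ w ∈ C, ∀ w' ∈ C, w.2 < w'.2 → ∀ r ∈ Icc w.2 w'.2, ((0 : E), r) ∈ C := by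
            intro w hw w' hw' _ r hr
            have := himg.Icc_subset (mem_image_of_mem _ hw) (mem_image_of_mem _ hw') hr
            obtain ⟨v, hv, hvr⟩ := this
            have : v = ((0 : E), r) := Prod.ext (h1 v hv).1 hvr
            rwa [← this]
          rcases lt_or_gt_of_ne hne2 with h2 | h2
          · exact ⟨z.2, z'.2, (h1 z hz).2, h2, key z hz z' hz' h2⟩
          · exact ⟨z'.2, z.2, (h1 z' hz').2, h2, key z' hz' z hz h2⟩
        obtain ⟨p, hp1, hp2⟩ := exists_rat_btwn hab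
        obtain ⟨q, hq1, hq2⟩ := exists_rat_btwn hp2
        set j : Set L := {w : L | (w : E × ℝ).2 ∈ Ioo (p : ℝ) q} with hj
        have hjJ : j ∈ J := ⟨⟨(p, q), rfl⟩, hsegcard p q (ha.trans hp1.le) hq1⟩
        refine sep (E × ℝ) P hPc cantorSet κ hcant hκc hκP hκd hκdis (F '' C) ?_ ?_
        · rintro _ ⟨w, hw, rfl⟩
          exact hFP w (hC0 hw)
        · intro Z' hZ'c hZ'P hZ'card
          set z0 : Set P := Subtype.val ⁻¹' Z' with hz0
          have himz : Subtype.val '' z0 = Z' := by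
            rw [hz0, Subtype.image_preimage_coe, inter_eq_right.2 hZ'P]
          have hz0Z : z0 ∈ Z := by
            refine ⟨by rw [himz]; exact hZ'c, ?_⟩
            have : Cardinal.mk z0 = Cardinal.mk Z' := by
              rw [← himz]
              exact (mk_image_eq Subtype.val_injective).symm
            rw [this]; exact hZ'card
          obtain ⟨a0, ha0, hga0⟩ := hg j hjJ z0 hz0Z
          have hva : (a0 : E × ℝ) = ((0 : E), (a0 : E × ℝ).2) :=
            Prod.ext ((hρz _).1 a0.2).1 rfl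
          refine ⟨F a0, ⟨a0, ?_, rfl⟩, ?_⟩
          · rw [hva]
            exact hC2 _ ⟨(hp1.trans ha0.1).le, (ha0.2.trans hq2).le⟩
          · rw [hF0 a0 a0.2]
            exact hga0
  · -- the inverse is not connected
    set A : Set E := ball (0 : E) 1 ∪ {e} with hA
    have hAX : A ⊆ X := by
      rintro x (hx | hx)
      · exact hbX hx
      · rw [mem_singleton_iff.1 hx]
        exact Or.inl (by simp [he])
    have hAc : IsConnected A := by
      have hb : IsPreconnected (ball (0 : E) 1) := (convex_ball 0 1).isPreconnected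
      refine ⟨⟨0, Or.inl (mem_ball_self one_pos)⟩, hb.subset_closure subset_union_left ?_⟩
      rintro x (hx | hx)
      · exact subset_closure hx
      · rw [mem_singleton_iff.1 hx, closure_ball (0 : E) one_ne_zero]
        simp [he]
    set S : Set (E × ℝ) := (fun x => Φ (x, 1)) '' A with hS
    have hSc : IsConnected S := by
      refine hAc.image _ ?_
      refine hloc.continuousOn.comp (t := X ×ˢ Ici (0 : ℝ)) (by fun_prop) ?_
      intro x hx
      exact ⟨hAX hx, mem_Ici.2 zero_le_one⟩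
    refine ⟨S, hSc, ?_⟩
    intro hcon
    set f := Equiv.ofBijective F hbij with hf
    have hfF : ∀ z, f z = F z := fun z => rfl
    -- values of rho on the preimage
    have hval : ∀ z ∈ f.symm '' S, ρ z = 0 ∨ ρ z = 1 := by
      rintro _ ⟨p, ⟨x, hx, rfl⟩, rfl⟩
      rcases hcase (f.symm (Φ (x, 1))) with hz | hz
      · exact Or.inl hz
      · right
        have h1 : F (f.symm (Φ (x, 1))) = Φ (x, 1) := by rw [← hfF, Equiv.apply_symm_apply]
        rw [hF1 _ hz] at h1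
        have h2 := (hloc.inj (hbX (hhb _)) (hAX hx) (le_of_lt (inv_pos.2 hz)) zero_le_one h1).2
        rw [inv_eq_one] at h2
        exact h2
    have himg : IsPreconnected (ρ '' (f.symm '' S)) := hcon.image ρ hρc.continuousOn
    have hm1 : (1 : ℝ) ∈ ρ '' (f.symm '' S) := by
      have h0A : (0 : E) ∈ A := Or.inl (mem_ball_self one_pos)
      have hmem : f.symm (Φ (0, 1)) ∈ f.symm '' S := mem_image_of_mem _ ⟨0, h0A, rfl⟩
      refine ⟨_, hmem, ?_⟩
      rcases hval _ hmem with h1 | h1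
      · exfalso
        have h2 := hFP _ h1
        rw [← hfF, Equiv.apply_symm_apply] at h2
        apply h2
        refine ⟨((0 : E), (1 : ℝ)), ⟨?_, mem_Ioi.2 one_pos⟩, rfl⟩
        rw [hint]; exact mem_ball_self one_pos
      · exact h1
    have hm0 : (0 : ℝ) ∈ ρ '' (f.symm '' S) := by
      have heA : e ∈ A := Or.inr rfl
      have hmem : f.symm (Φ (e, 1)) ∈ f.symm '' S := mem_image_of_mem _ ⟨e, heA, rfl⟩
      refine ⟨_, hmem, ?_⟩
      rcases hcase (f.symm (Φ (e, 1))) with h1 | h1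
      · exact h1
      · exfalso
        have h2 : F (f.symm (Φ (e, 1))) = Φ (e, 1) := by rw [← hfF, Equiv.apply_symm_apply]
        rw [hF1 _ h1] at h2
        have h3 := (hloc.inj (hbX (hhb _)) (hAX heA) (le_of_lt (inv_pos.2 h1)) zero_le_one h2).1
        have h4 := hhb (θ (f.symm (Φ (e, 1))))
        rw [h3] at h4
        have : ‖e‖ < 1 := by simpa using h4
        linarith
    have hhalf : (1 / 2 : ℝ) ∈ ρ '' (f.symm '' S) :=
      himg.Icc_subset hm0 hm1 ⟨by norm_num, by norm_num⟩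
    obtain ⟨z, hz, hz2⟩ := hhalf
    rcases hval z hz with h1 | h1 <;> rw [h1] at hz2 <;> norm_num at hz2

end Pool.Agent.R745.CB
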