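import Mathlib

/-!
Connected bijections of `R^n` with non-connected inverse (problem MP_8f6e3d_gt): the statements of
the independent pieces.  See `notes.md` in this folder for the complete proof.
-/

namespace Pool.Agent.R745.CB

open Set Topology Metric Cardinal

/-- A (push): inside a connected open set every point can be moved to every other one by a
homeomorphism of the whole space which is the identity off the open set. -/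
def StmPush : Prop :=
  ∀ (V : Type) [NormedAddCommGroup V] [NormedSpace ℝ V] [CompleteSpace V] (U : Set V),
    IsOpen U → IsPreconnected U → ∀ p ∈ U, ∀ q ∈ U,
      ∃ h : V ≃ₜ V, h p = q ∧ ∀ x, x ∉ U → h x = x

/-- B (complement): the complement of two stacked product blocks is connected. -/
def StmCompl : Prop :=
  ∀ (E : Type) [NormedAddCommGroup E] [NormedSpace ℝ E] (X B : Set E) (a b c : ℝ),
    X ⊆ B → (∃ v, v ∉ B) → a ≤ b → b ≤ c →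
      IsPreconnected ((X ×ˢ Icc a b ∪ B ×ˢ Icc b c)ᶜ : Set (E × ℝ))

/-- C (one stage of the construction of the canal). -/
def StmStage : Prop :=
  ∀ (E : Type) [NormedAddCommGroup E] [NormedSpace ℝ E] [FiniteDimensional ℝ E] [Nontrivial E]
    (X : Set E) (R : ℝ), IsCompact X → X ⊆ closedBall 0 R → 0 < R →
    ∀ (Ψ : (E × ℝ) ≃ₜ (E × ℝ)) (k ε ε' : ℝ) (q : E × ℝ), 0 ≤ k → 0 < ε → 0 < ε' →
      (∀ x ∈ closedBall (0 : E) R, ∀ x' ∈ closedBall (0 : E) R,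
        dist (Ψ (x, k)) (Ψ (x', k)) < ε) →
      ∃ Ψ' : (E × ℝ) ≃ₜ (E × ℝ),
        (∀ x ∈ X, ∀ t ∈ Icc 0 k, Ψ' (x, t) = Ψ (x, t)) ∧
        (∀ t ∈ Icc k (k + 1), ∀ x ∈ closedBall (0 : E) R, ∀ x' ∈ closedBall (0 : E) R,
          dist (Ψ' (x, t)) (Ψ' (x', t)) < ε) ∧
        (∀ x ∈ closedBall (0 : E) R, ∀ x' ∈ closedBall (0 : E) R,
          dist (Ψ' (x, k + 1)) (Ψ' (x', k + 1)) < ε') ∧
        ((∃ x ∈ X, ∃ t ∈ Icc 0 k, Ψ (x, t) = q) ∨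
          ∃ t ∈ Icc k (k + 1), ∀ x ∈ closedBall (0 : E) R, dist (Ψ' (x, t)) q < ε)

/-- D (the dense canal). -/
def StmCanal : Prop :=
  ∀ (E : Type) [NormedAddCommGroup E] [NormedSpace ℝ E] [FiniteDimensional ℝ E] [Nontrivial E]
    (X : Set E), IsCompact X →
    ∃ Φ : E × ℝ → E × ℝ,
      (∀ k : ℕ, ∃ Ψ : (E × ℝ) ≃ₜ (E × ℝ), ∀ x ∈ X, ∀ t ∈ Icc (0 : ℝ) k, Φ (x, t) = Ψ (x, t)) ∧
      ∀ y, y ∉ Φ '' (interior X ×ˢ Ioi (0 : ℝ)) → ∀ r > 0, ∀ T : ℝ,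
        ∃ t, T ≤ t ∧ 0 < t ∧ ∀ x ∈ X, dist (Φ (x, t)) y < r

/-- F (Bernstein type bijection). -/
def StmBern : Prop :=
  ∀ (A P : Type), #A = 𝔠 → #P = 𝔠 → ∀ (J : Set (Set A)) (Z : Set (Set P)),
    #J ≤ 𝔠 → #Z ≤ 𝔠 → (∀ j ∈ J, 𝔠 ≤ #j) → (∀ z ∈ Z, 𝔠 ≤ #z) →
      ∃ g : A ≃ P, ∀ j ∈ J, ∀ z ∈ Z, ∃ a ∈ j, g a ∈ z

/-- G (parabolic coordinates on the complement of a ray). -/
def StmPar : Prop :=
  ∀ (E : Type) [NormedAddCommGroup E] [NormedSpace ℝ E],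
    ∃ (ρ : E × ℝ → ℝ) (θ : E × ℝ → E), Continuous ρ ∧ (∀ z, 0 ≤ ρ z) ∧
      (∀ z, ρ z = 0 ↔ z.1 = 0 ∧ 0 ≤ z.2) ∧ ContinuousOn θ {z | 0 < ρ z} ∧
      ∀ (u : E) (c : ℝ), 0 < c → ∃! z, ρ z = c ∧ θ z = u

/-- K (glueing). -/
def StmGlue : Prop :=
  ∀ (V W : Type) [TopologicalSpace V] [MetricSpace W] (ρ : V → ℝ) (f : V → W), Continuous ρ →
    (∀ z, 0 ≤ ρ z) → ContinuousOn f {z | 0 < ρ z} →
    (∀ w, ρ w = 0 → ∀ r > 0, ∀ ε > 0, ∃ c, 0 < c ∧ c < ε ∧ ∀ z, ρ z = c → dist (f z) (f w) < r) →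
    (∀ C : Set V, IsPreconnected C → C ⊆ {z | ρ z = 0} → IsPreconnected (f '' C)) →
    ∀ C : Set V, IsPreconnected C → IsPreconnected (f '' C)

/-- I (subsets of the complement of the canal which meet all big closed sets are connected). -/
def StmSep : Prop :=
  ∀ (V : Type) [MetricSpace V] (P : Set V), IsClosed P →
    ∀ (S : Type) (κ : S → Set V), 𝔠 ≤ #S → (∀ s, IsPreconnected (κ s)) → (∀ s, κ s ⊆ P) →
      (∀ s, P ⊆ closure (κ s)) → (∀ s s', s ≠ s' → Disjoint (κ s) (κ s')) →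
      ∀ A : Set V, A ⊆ P → (∀ Z : Set V, IsClosed Z → Z ⊆ P → 𝔠 ≤ #Z → (A ∩ Z).Nonempty) →
        IsPreconnected A

end Pool.Agent.R745.CB
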